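import Pool.Agent.N64.AF.Q

/-!
# W: objects which are not self-dual
-/

set_option autoImplicit false
set_option linter.unusedSectionVars false

open CategoryTheory Limits MonoidalCategory Module Filter Topology
open Pool.Agent.Y112.SR Pool.Agent.Y112.KD
open Pool.Agent.Y116.MT (tr)
open scoped ENNReal

namespace Pool.Agent.N413.AFW

open Pool.Agent.N64.AF

universe v u w t x

section Cat

variable {C : Type u} [Category.{v} C] [MonoidalCategory C] [SymmetricCategory C]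

/-- The dual of the tensor power, factors in reversed order. -/
@[reducible] def dp (D : C) : ℕ → C
  | 0 => 𝟙_ C
  | n + 1 => D ⊗ dp D n

/-- The exact pairing of the powers. -/
@[instance_reducible]
noncomputable def pairTp (T D : C) [ExactPairing T D] : ∀ n : ℕ, ExactPairing (tp T n) (dp D n)
  | 0 => exactPairingUnit
  | n + 1 => by
      letI := pairTp T D n
      exact ExactPairing.tensor (X₁ := tp T n) (X₂ := T) (Y₁ := dp D n) (Y₂ := D)

/-- The powers of `T ⊗ D`. -/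
noncomputable def isoTp (T D : C) : ∀ n : ℕ, tp (T ⊗ D) n ≅ tp T n ⊗ dp D n
  | 0 => (λ_ (𝟙_ C)).symm
  | n + 1 =>
      whiskerRightIso (isoTp T D n) (T ⊗ D) ≪≫
        (⟨tensorμ (tp T n) (dp D n) T D, tensorδ (tp T n) (dp D n) T D,
          by simp, by simp⟩ : (tp T n ⊗ dp D n) ⊗ (T ⊗ D) ≅ (tp T n ⊗ T) ⊗ (dp D n ⊗ D)) ≪≫
        whiskerLeftIso (tp T n ⊗ T) (β_ (dp D n) D)

end Cat

end Pool.Agent.N413.AFW

namespace Pool.Agent.N64.AF

open Pool.Agent.N413.AFW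

universe v u w t x

variable {C : Type u} [Category.{v} C] [Preadditive C] [MonoidalCategory C]
  [MonoidalPreadditive C] [SymmetricCategory C] [RightRigidCategory C]
  {Λ : Type t} [Field Λ] [CharZero Λ] [Linear Λ C] [MonoidalLinear Λ C]
  {K : Type w} [Field K] [IsAlgClosed K] [Algebra Λ K] {R : SuperRealisation C K}

/-- W1: the object `T ⊗ Tᘁ`. -/
theorem isPow_tensor_dual (hR : IsReal Λ R) {T : C} (hT : R.CPlus T) (hb : 0 < bt R T) :
    ∃ _ : ExactPairing (T ⊗ Tᘁ) (T ⊗ Tᘁ), IsPow Λ R (T ⊗ Tᘁ) := by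
  let _ : ExactPairing Tᘁ T := BraidedCategory.exactPairing_swap T Tᘁ
  refine ⟨ExactPairing.tensor (X₁ := T) (X₂ := Tᘁ) (Y₁ := Tᘁ) (Y₂ := T), hR,
    cplus_tensor hR hT (cplus_dual hR hT), ?_⟩
  obtain ⟨w, hw⟩ := P1aux.of_cplus hT
  obtain ⟨τ, hτ1, hτ2⟩ := exists_tau hR T
  have hfin := R.finite T
  have hK : CharZero K := charZero_of_injective_algebraMap (algebraMap Λ K).injective
  have h1 : algebraMap Λ K (τ w) = (bt R T : K) := by
    rw [hτ2, hw, R.par_sq, ModuleCat.hom_id, LinearMap.trace_id]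
    rfl
  have h2 : τ w ≠ 0 := by
    intro h0
    rw [h0, map_zero] at h1
    have : (bt R T : K) ≠ 0 := Nat.cast_ne_zero.2 (by omega)
    exact this h1.symm
  have h3 := hτ1 w
  refine ⟨η_ T Tᘁ, (τ w)⁻¹ • ((w ▷ Tᘁ) ≫ (β_ T Tᘁ).hom ≫ ε_ T Tᘁ), ?_⟩
  rw [Linear.comp_smul]
  have h4 : η_ T Tᘁ ≫ (w ▷ Tᘁ) ≫ (β_ T Tᘁ).hom ≫ ε_ T Tᘁ = tr w := rfl
  rw [h4, h3, smul_smul, inv_mul_cancel₀ h2, one_smul]

/-- W2: the powers of `T ⊗ Tᘁ`. -/
theorem numRank_tensor_dual (hR : IsReal Λ R) (T : C) (n : ℕ) :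
    numRank Λ (tp (T ⊗ Tᘁ) n) = nr Λ (𝟙 (tp T n)) (𝟙 (tp T n)) := by
  let _ := pairTp T Tᘁ n
  rw [numRank_eq, nr_congr_right hR (isoTp T Tᘁ n) (𝟙 (𝟙_ C)) (f' := 𝟙 (tp T n ⊗ dp Tᘁ n))
    (by rw [Category.id_comp, Category.comp_id]), ← id_whiskerRight,
    ← nr_dual hR (tp T n) (dp Tᘁ n)]
  exact nr_congr_left hR (λ_ (tp T n)) (by rw [id_whiskerRight, Category.id_comp, Category.comp_id]) _

/-- W3: the morphisms to the powers of `T ⊗ Tᘁ`. -/
theorem nonempty_equiv_tensor_dual (T : C) (n : ℕ) :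
    Nonempty ((𝟙_ C ⟶ tp (T ⊗ Tᘁ) n) ≃ₗ[Λ] (tp T n ⟶ tp T n)) := by
  let _ := pairTp T Tᘁ n
  let Φ : (𝟙_ C ⊗ tp T n ⟶ tp T n) ≃ₗ[Λ] (𝟙_ C ⟶ tp T n ⊗ dp Tᘁ n) :=
    { tensorRightHomEquiv (𝟙_ C) (tp T n) (dp Tᘁ n) (tp T n) with
      map_add' := fun a b => by
        simp only [tensorRightHomEquiv, Equiv.toFun_as_coe, Equiv.coe_fn_mk,
          MonoidalPreadditive.add_whiskerRight, Preadditive.comp_add]
      map_smul' := fun a b => by
        simp only [tensorRightHomEquiv, Equiv.toFun_as_coe, Equiv.coe_fn_mk,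
          MonoidalLinear.smul_whiskerRight, Linear.comp_smul, RingHom.id_apply] }
  exact ⟨(Linear.homCongr Λ (Iso.refl (𝟙_ C)) (isoTp T Tᘁ n)).trans
    (Φ.symm.trans (Linear.homCongr Λ (λ_ (tp T n)) (Iso.refl (tp T n))))⟩

end Pool.Agent.N64.AF
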